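import Pool.Agent.Helper86.QA.St4

/-!
# Project QD (MP_d112a4_gt), part A: module KEG (the two domains of a good group)
-/

set_option autoImplicit false

open MeasureTheory Matrix Set Topology Filter
open scoped ENNReal ComplexConjugate ComplexOrder

namespace Pool.Agent.Helper28.QA

open Pool.Agent.Helper86.QA Pool.Agent.Helper20
open Pool.Agent.Helper20.QD (Fuch Good OutSide OneSide Lam inn out Qp Qinf sph act orb fr IsSU CC
  mob Param)
open Pool.Agent.Helper35.PM (limitSet density)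

private theorem keg_one (Q : Mat) (hQ : Q ∈ sph) : act 1 Q = Q := by
  unfold act density
  rw [Matrix.SpecialLinearGroup.coe_one, one_mul, Matrix.conjTranspose_one, mul_one, hQ.2.1,
    inv_one, one_smul]

private theorem keg_mul (hLQC : QD.StLQC) (A B : SL) (Q : Mat) (hQ : Q ∈ sph) :
    act (A * B) Q = act A (act B Q) := by
  obtain ⟨_, _, _, _, _, _, _, _, _, _, h⟩ := hLQC
  exact h A B Q hQ.1 hQ.2.1

private theorem keg_mem (hLQC : QD.StLQC) (A : SL) (Q : Mat) (hQ : Q ∈ sph) :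
    act A Q ∈ sph := by
  obtain ⟨_, _, _, _, _, _, _, _, h, _, _⟩ := hLQC
  exact h A Q hQ

private theorem keg_inv (hLQC : QD.StLQC) (A : SL) (Q : Mat) (hQ : Q ∈ sph) :
    act A⁻¹ (act A Q) = Q := by
  rw [← keg_mul hLQC A⁻¹ A Q hQ, inv_mul_cancel, keg_one Q hQ]

private theorem keg_inv' (hLQC : QD.StLQC) (A : SL) (Q : Mat) (hQ : Q ∈ sph) :
    act A (act A⁻¹ Q) = Q := by
  rw [← keg_mul hLQC A A⁻¹ Q hQ, mul_inv_cancel, keg_one Q hQ]

private theorem keg_gi (p z : ℂ) : QD.den (gi p) z = z - p ∧ mob (gi p) z = mi p z := by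
  have h00 : ((gi p : SL) : Mat) 0 0 = 0 := rfl
  have h01 : ((gi p : SL) : Mat) 0 1 = -1 := rfl
  have h10 : ((gi p : SL) : Mat) 1 0 = 1 := rfl
  have h11 : ((gi p : SL) : Mat) 1 1 = -p := rfl
  unfold QD.den mob mi
  rw [h00, h01, h10, h11]
  constructor
  · ring
  · congr 1
    · ring
    · ring

private theorem keg_gi0 (p : ℂ) : QD.den (gi p)⁻¹ 0 = 0 := by
  unfold QD.den
  rw [Matrix.SpecialLinearGroup.coe_inv, Matrix.adjugate_fin_two]
  have h00 : ((gi p : SL) : Mat) 0 0 = 0 := rfl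
  simp [h00]

/-- `mi p` on an open set without `p` -/
private theorem keg_open (p : ℂ) (U : Set ℂ) (hU : IsOpen U) (hp : p ∉ U) :
    IsOpen (mi p '' U) ∧ ∀ η, η ∈ mi p '' U ↔ η ≠ 0 ∧ p - η⁻¹ ∈ U := by
  have hiff : ∀ η, η ∈ mi p '' U ↔ η ≠ 0 ∧ p - η⁻¹ ∈ U := by
    intro η
    constructor
    · rintro ⟨z, hz, rfl⟩
      have hzp : z - p ≠ 0 := by
        intro h
        exact hp (by rwa [← sub_eq_zero.1 h])
      unfold mi
      refine ⟨div_ne_zero (by norm_num) hzp, ?_⟩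
      have : p - (-1 / (z - p))⁻¹ = z := by
        field_simp
        ring
      rwa [this]
    · rintro ⟨h0, h1⟩
      refine ⟨_, h1, ?_⟩
      unfold mi
      field_simp
      ring
  refine ⟨?_, hiff⟩
  have : mi p '' U = {η : ℂ | η ≠ 0} ∩ (fun η : ℂ => p - η⁻¹) ⁻¹' U := by
    ext η
    rw [hiff η]
    rfl
  rw [this]
  refine ContinuousOn.isOpen_inter_preimage ?_ isOpen_ne hU
  exact continuousOn_const.sub (continuousOn_id.inv₀ (fun x hx => hx))

private theorem keg_inj (p : ℂ) {z w : ℂ} (hz : z ≠ p) (hw : w ≠ p) (h : mi p z = mi p w) :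
    z = w := by
  have h1 : z - p ≠ 0 := sub_ne_zero.2 hz
  have h2 : w - p ≠ 0 := sub_ne_zero.2 hw
  unfold mi at h
  field_simp at h
  linear_combination h

theorem hKEG (hLQC : QD.StLQC) (_hLMX : QD.StLMX) (hLLS : QD.StLLS) (hLLA : QD.StLLA)
    (hLCJ : QD.StLCJ) (hTJ1 : QD.StTJ1) (hTJ2 : QD.StTJ2) : StKEG := by
  intro Γ _ ρ p hρ hp
  obtain ⟨β, hβ⟩ := hρ.jordan
  obtain ⟨tj1, tj2, tj3, tj4, tj5, tj6, tj7, R, tj8, tj9⟩ := hTJ2 β (Lam ρ) hβ
  have hLQC' := hLQC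
  obtain ⟨q1, q2, q3, q4, q5, q6, q7, q8, q9, q10, q11⟩ := hLQC'
  obtain ⟨_, l2, _, l4, _⟩ := hLLS Γ ρ hρ.cc.discrete
  obtain ⟨_, a2, _⟩ := hLLA Γ ρ hρ.cc.discrete hρ.inf
  obtain ⟨cc', lim', _⟩ := hLCJ.1 Γ ρ (gi p) hρ.cc
  -- the three pieces of the sphere
  set I : Set Mat := Qp '' inn (Lam ρ) with hI
  set O : Set Mat := insert Qinf (Qp '' out (Lam ρ)) with hO
  have hpi : p ∉ inn (Lam ρ) := fun h => h.1 hp
  have hpo : p ∉ out (Lam ρ) := fun h => h.1 hp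
  have hIs : I ⊆ sph := by
    rintro _ ⟨z, _, rfl⟩
    exact (q3 z).1
  have hOs : O ⊆ sph := by
    intro Q hQ
    rcases hQ with hQ | ⟨z, _, rfl⟩
    · rw [hQ]
      exact q2
    · exact (q3 z).1
  have hcov : ∀ Q ∈ sph, Q ∈ I ∨ Q ∈ O ∨ Q ∈ limitSet ρ := by
    intro Q hQ
    rcases q1 Q hQ with h | ⟨z, rfl⟩
    · exact Or.inr (Or.inl (Or.inl h))
    · by_cases hz : z ∈ Lam ρ
      · exact Or.inr (Or.inr hz)
      · by_cases hl : QD.LogOn (Lam ρ) (fun w => w - z)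
        · exact Or.inr (Or.inl (Or.inr ⟨z, ⟨hz, hl⟩, rfl⟩))
        · exact Or.inl ⟨z, ⟨hz, hl⟩, rfl⟩
  have hIO : ∀ Q, Q ∈ I → Q ∉ O := by
    rintro _ ⟨z, hz, rfl⟩ h
    rcases h with h | ⟨w, hw, he⟩
    · exact (q3 z).2 h
    · rw [q7 he] at hw
      exact hz.2 hw.2
  have hIL : ∀ Q, Q ∈ I → Q ∉ limitSet ρ := by
    rintro _ ⟨z, hz, rfl⟩ h
    exact hz.1 h
  have hOL : ∀ Q, Q ∈ O → Q ∉ limitSet ρ := by
    intro Q hQ h
    rcases hQ with hQ | ⟨w, hw, rfl⟩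
    · rw [hQ] at h
      exact hρ.inf h
    · exact hw.1 h
  have hI' : ∀ γ, ∀ Q ∈ I, act (ρ γ) Q ∈ I := by
    rintro γ _ ⟨z, hz, rfl⟩
    obtain ⟨h1, h2⟩ := hρ.side γ z hz
    rw [(q8 (ρ γ) z).1 h1]
    exact ⟨_, h2, rfl⟩
  have hO' : ∀ γ, ∀ Q ∈ O, act (ρ γ) Q ∈ O := by
    intro γ Q hQ
    have hinv : act (ρ γ⁻¹) (act (ρ γ) Q) = Q := by
      rw [map_inv]
      exact keg_inv hLQC (ρ γ) Q (hOs hQ)
    rcases hcov _ (keg_mem hLQC (ρ γ) Q (hOs hQ)) with h | h | h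
    · exfalso
      have := hI' γ⁻¹ _ h
      rw [hinv] at this
      exact hIO Q this hQ
    · exact h
    · exfalso
      have := l4 γ⁻¹ _ h
      rw [hinv] at this
      exact hOL Q hQ this
  -- images under `act (gi p)`
  have hQp : ∀ z, z ≠ p → act (gi p) (Qp z) = Qp (mi p z) := by
    intro z hz
    have := (q8 (gi p) z).1 (by rw [(keg_gi p z).1]; exact sub_ne_zero.2 hz)
    rw [this, (keg_gi p z).2]
  have hQpp : act (gi p) (Qp p) = Qinf := by
    apply (q8 (gi p) p).2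
    rw [(keg_gi p p).1, sub_self]
  have hQi : act (gi p) Qinf = Qp 0 := by
    have h1 := (q8 (gi p)⁻¹ 0).2 (keg_gi0 p)
    rw [← h1]
    exact keg_inv' hLQC (gi p) (Qp 0) (q3 0).1
  have hsB : Qp '' (sB ρ p) = act (gi p) '' I := by
    unfold sB
    rw [hI, image_image, image_image]
    apply image_congr
    intro z hz
    exact (hQp z (fun h => hpi (h ▸ hz))).symm
  have hsA : Qp '' (sA ρ p) = act (gi p) '' O := by
    unfold sA
    rw [hO, image_insert_eq, image_insert_eq, image_image, image_image, hQi]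
    congr 1
    apply image_congr
    intro z hz
    exact (hQp z (fun h => hpo (h ▸ hz))).symm
  have hinj : ∀ Q ∈ sph, ∀ Q' ∈ sph, act (gi p) Q = act (gi p) Q' → Q = Q' := by
    intro Q hQ Q' hQ' h
    rw [← keg_inv hLQC (gi p) Q hQ, h, keg_inv hLQC (gi p) Q' hQ']
  have hconj : ∀ γ, ∀ Q ∈ sph, act (QD.cj (gi p) ρ γ) (act (gi p) Q) =
      act (gi p) (act (ρ γ) Q) := by
    intro γ Q hQ
    have h1 : (QD.cj (gi p) ρ γ : SL) = gi p * ρ γ * (gi p)⁻¹ := rfl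
    rw [h1, keg_mul hLQC _ _ _ (keg_mem hLQC _ _ hQ), keg_inv hLQC _ _ hQ,
      keg_mul hLQC _ _ _ hQ]
  -- invariance in the coordinate
  have hmp : ∀ (S : Set ℂ) (T : Set Mat), T ⊆ sph → Qp '' S = act (gi p) '' T →
      (∀ γ, ∀ Q ∈ T, act (ρ γ) Q ∈ T) → ∀ γ : Γ, ∀ ξ ∈ S,
        QD.cj (gi p) ρ γ 1 0 * ξ + QD.cj (gi p) ρ γ 1 1 ≠ 0 ∧ mb (QD.cj (gi p) ρ γ) ξ ∈ S := by
    intro S T hT hST hinvT γ ξ hξ
    have h1 : Qp ξ ∈ act (gi p) '' T := by
      rw [← hST]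
      exact mem_image_of_mem _ hξ
    obtain ⟨Q, hQ, hQe⟩ := h1
    have h2 : act (QD.cj (gi p) ρ γ) (Qp ξ) ∈ Qp '' S := by
      rw [← hQe, hconj γ Q (hT hQ), hST]
      exact mem_image_of_mem _ (hinvT γ Q hQ)
    obtain ⟨η, hη, hηe⟩ := h2
    have h3 : QD.den (QD.cj (gi p) ρ γ) ξ ≠ 0 := by
      intro h0
      rw [(q8 _ ξ).2 h0] at hηe
      exact (q3 η).2 hηe
    refine ⟨h3, ?_⟩
    rw [(q8 _ ξ).1 h3] at hηe
    have h4 := q7 hηe
    have h5 : mb (QD.cj (gi p) ρ γ) ξ = mob (QD.cj (gi p) ρ γ) ξ := rfl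
    rw [h5, ← h4]
    exact hη
  have hopen := keg_open p (out (Lam ρ)) tj4 hpo
  have hdisj : Disjoint (sA ρ p) (sB ρ p) := by
    rw [Set.disjoint_left]
    intro η h1 h2
    have h3 : Qp η ∈ act (gi p) '' O := by
      rw [← hsA]
      exact mem_image_of_mem _ h1
    have h4 : Qp η ∈ act (gi p) '' I := by
      rw [← hsB]
      exact mem_image_of_mem _ h2
    obtain ⟨Q, hQ, hQe⟩ := h3
    obtain ⟨Q', hQ', hQe'⟩ := h4
    have := hinj Q (hOs hQ) Q' (hIs hQ') (hQe.trans hQe'.symm)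
    rw [this] at hQ
    exact hIO Q' hQ' hQ
  refine ⟨⟨cc'.discrete, ?_, (keg_open p (inn (Lam ρ)) tj1 hpi).1, ⟨0, mem_insert _ _⟩,
    (hTJ1 β (Lam ρ) hβ).1.image _, hdisj,
    hmp (sA ρ p) O hOs hsA hO', hmp (sB ρ p) I hIs hsB hI'⟩, cc', ?_, ?_, ?_⟩
  · -- `sA` is open
    have hR : 0 < |R| + ‖p‖ + 1 := by positivity
    have : sA ρ p = mi p '' out (Lam ρ) ∪ Metric.ball 0 (1 / (|R| + ‖p‖ + 1)) := by
      ext η
      unfold sA
      rw [mem_insert_iff, mem_union]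
      constructor
      · rintro (h | h)
        · right
          rw [h]
          exact Metric.mem_ball_self (by positivity)
        · exact Or.inl h
      · rintro (h | h)
        · exact Or.inr h
        · by_cases h0 : η = 0
          · exact Or.inl h0
          · right
            rw [hopen.2 η]
            refine ⟨h0, tj9 _ ?_⟩
            rw [mem_ball_zero_iff] at h
            have h1 : 0 < ‖η‖ := norm_pos_iff.2 h0
            have h2 : |R| + ‖p‖ + 1 < ‖η‖⁻¹ := by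
              rw [lt_inv_comm₀ hR h1, ← one_div]
              exact h
            have h3 : ‖η⁻¹‖ - ‖p‖ ≤ ‖p - η⁻¹‖ := by
              rw [norm_sub_rev]
              exact norm_sub_norm_le _ _
            rw [norm_inv] at h3
            have h4 := le_abs_self R
            linarith
    rw [this]
    exact hopen.1.union Metric.isOpen_ball
  · rw [lim', ← hQpp]
    exact mem_image_of_mem _ hp
  · rw [Set.disjoint_left, lim', image_union, hsA, hsB, ← image_union]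
    rintro _ ⟨Q, hQ, rfl⟩ ⟨Q', hQ', he⟩
    have hQs : Q ∈ sph := by
      rcases hQ with h | h
      · exact hOs h
      · exact hIs h
    have := hinj Q' (l2 hQ') Q hQs he
    rw [this] at hQ'
    rcases hQ with h | h
    · exact hOL Q h hQ'
    · exact hIL Q h hQ'
  · rw [lim', hsA, hsB]
    apply Subset.antisymm
    · intro Q hQ
      have h1 := keg_inv' hLQC (gi p) Q hQ
      rcases hcov _ (keg_mem hLQC (gi p)⁻¹ Q hQ) with h | h | h
      · right
        exact ⟨_, h, h1⟩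
      · left
        right
        exact ⟨_, h, h1⟩
      · left
        left
        exact ⟨_, h, h1⟩
    · rintro _ ((⟨Q, hQ, rfl⟩ | ⟨Q, hQ, rfl⟩) | ⟨Q, hQ, rfl⟩)
      · exact keg_mem hLQC _ _ (l2 hQ)
      · exact keg_mem hLQC _ _ (hOs hQ)
      · exact keg_mem hLQC _ _ (hIs hQ)

end Pool.Agent.Helper28.QA
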