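import Pool.Agent.Helper86.QA.St5

/-! # Project QD, part A: module AXI (an equivariant map to the circle) -/

set_option autoImplicit false

open MeasureTheory Matrix Set Topology Filter
open scoped ENNReal ComplexConjugate ComplexOrder

namespace Pool.Agent.Helper28.QA

open Pool.Agent.Helper86.QA Pool.Agent.Helper20
open Pool.Agent.Helper20.QD (Fuch IsSU mob)

theorem hAXI (hCHV : StCHV) (hAD1 : StAD1) (hAFD : StAFD) : StAXI := by
  intro Γ _ σ hσ tf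
  obtain ⟨hc, hact, ⟨F, r, hr, hF, hFr⟩, -, -⟩ := hAFD Γ σ hσ tf
  have := hc
  obtain ⟨-, -, -, -, h5, -, -⟩ := hAD1
  obtain ⟨-, hm, -, h1, hmeas⟩ := hCHV
  classical
  have mmul : ∀ (A B : SL) (z : ℂ), QD.den B z ≠ 0 → mob (A * B) z = mob A (mob B z) :=
    fun A B z h => (hm A B z h).1
  have one_sph : (1 : ℂ) ∈ Metric.sphere (0 : ℂ) 1 := by simp
  set ξ : ℂ → ℂ := fun x =>
    if h : ∃ γ : Γ, ad σ γ x ∈ F ∧ x ∈ Metric.ball (0 : ℂ) 1 then mob (σ (Classical.choose h)⁻¹) 1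
    else 1 with hξ
  have xin : ∀ (γ : Γ) (x : ℂ), x ∈ Metric.ball (0 : ℂ) 1 → ad σ γ x ∈ F →
      ξ x = mob (σ γ⁻¹) 1 := by
    intro γ x hx hγ
    have h : ∃ γ : Γ, ad σ γ x ∈ F ∧ x ∈ Metric.ball (0 : ℂ) 1 := ⟨γ, hγ, hx⟩
    have e : ξ x = mob (σ (Classical.choose h)⁻¹) 1 := by rw [hξ]; exact dif_pos h
    have e2 : Classical.choose h = γ :=
      (hF.ex x hx).unique (Classical.choose_spec h).1 hγ
    rw [e, e2]
  have xout : ∀ x : ℂ, x ∉ Metric.ball (0 : ℂ) 1 → ξ x = 1 := by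
    intro x hx
    have h : ¬ ∃ γ : Γ, ad σ γ x ∈ F ∧ x ∈ Metric.ball (0 : ℂ) 1 := fun ⟨_, _, h⟩ => hx h
    rw [hξ]
    exact dif_neg h
  have adm : ∀ γ : Γ, Measurable (ad σ γ) := fun γ => hact.me γ
  refine ⟨ξ, ?_, ?_, ?_⟩
  · intro s hs
    have e : ξ ⁻¹' s = (⋃ γ : Γ, {x | mob (σ γ⁻¹) 1 ∈ s ∧ x ∈ Metric.ball (0 : ℂ) 1 ∧
        ad σ γ x ∈ F}) ∪ {x | (1 : ℂ) ∈ s ∧ x ∉ Metric.ball (0 : ℂ) 1} := by
      ext x
      simp only [mem_preimage, mem_union, mem_iUnion, mem_ofPred_eq]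
      constructor
      · intro h
        by_cases hx : x ∈ Metric.ball (0 : ℂ) 1
        · obtain ⟨γ, hγ, -⟩ := hF.ex x hx
          left
          refine ⟨γ, ?_, hx, hγ⟩
          rwa [xin γ x hx hγ] at h
        · right
          rw [xout x hx] at h
          exact ⟨h, hx⟩
      · rintro (⟨γ, h, hx, hγ⟩ | ⟨h, hx⟩)
        · rwa [xin γ x hx hγ]
        · rwa [xout x hx]
    rw [e]
    refine MeasurableSet.union (MeasurableSet.iUnion fun γ => ?_) ?_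
    · refine MeasurableSet.inter (MeasurableSet.const _) ?_
      exact MeasurableSet.inter measurableSet_ball ((adm γ) hF.mD)
    · exact MeasurableSet.inter (MeasurableSet.const _) measurableSet_ball.compl
  · intro x
    by_cases hx : x ∈ Metric.ball (0 : ℂ) 1
    · obtain ⟨γ, hγ, -⟩ := hF.ex x hx
      rw [xin γ x hx hγ]
      exact (h5 (σ γ⁻¹) (hσ.su _) 1).2.2 one_sph
    · rw [xout x hx]
      exact one_sph
  · intro γ x hx
    obtain ⟨δ, hδ, -⟩ := hF.ex x hx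
    have hx' : ad σ γ x ∈ Metric.ball (0 : ℂ) 1 := hact.ms γ x hx
    have e1 : ad σ (δ * γ⁻¹) (ad σ γ x) = ad σ δ x := by
      rw [← hact.mul _ _ x hx, inv_mul_cancel_right]
    rw [xin δ x hx hδ, xin (δ * γ⁻¹) (ad σ γ x) hx' (by rw [e1]; exact hδ)]
    have e2 : σ (δ * γ⁻¹)⁻¹ = σ γ * σ δ⁻¹ := by
      rw [_root_.mul_inv_rev, inv_inv, map_mul]
    rw [e2]
    exact mmul _ _ _ ((h5 (σ δ⁻¹) (hσ.su _) 1).1 (Metric.sphere_subset_closedBall one_sph)).1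

end Pool.Agent.Helper28.QA
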