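import Pool.Agent.Helper86.QA.St2

/-!
# Project QD (MP_d112a4_gt), part A: module ACU
-/

set_option autoImplicit false

open MeasureTheory Matrix Set Topology
open scoped ENNReal ComplexConjugate

namespace Pool.Agent.Helper28.QA

open Pool.Agent.Helper86.QA

private theorem acu_swap {Γ : Type} [Group Γ] {ρ : Γ →* SL} {A B : Set ℂ} (h : KD ρ A B) :
    KD ρ B A where
  tf := h.tf
  disc := h.disc
  opA := h.opB
  opB := h.opA
  neA := h.neB
  neB := h.neA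
  dis := h.dis.symm
  nul := by
    rw [Set.union_comm]
    exact h.nul
  mpA := h.mpB
  mpB := h.mpA
  cpt := by
    obtain ⟨K, KA, KB, τ, h1, h2, h3, h4, h5, h6, h7, h8⟩ := h.cpt
    refine ⟨K, KB, KA, τ, h1, h2, h5, h6, h3, h4, h7, fun x hx => ?_⟩
    obtain ⟨γ, hγ⟩ := h8 x hx
    refine ⟨γ, ?_⟩
    rcases hγ with hγ | hγ | hγ
    · exact Or.inl hγ
    · exact Or.inr (Or.inr hγ)
    · exact Or.inr (Or.inl hγ)

private theorem acu_iff (hCHV : StCHV) {Γ : Type} [Group Γ] {ρ : Γ →* SL} {A B : Set ℂ}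
    (h : KD ρ A B) (γ : Γ) (ξ : ℂ) (hξ : ρ γ 1 0 * ξ + ρ γ 1 1 ≠ 0) :
    ξ ∈ A ↔ mb (ρ γ) ξ ∈ A := by
  constructor
  · intro hA
    exact (h.mpA γ ξ hA).2
  · intro hA
    have h1 := (h.mpA γ⁻¹ _ hA).2
    have h2 := (hCHV.2.1 (ρ γ⁻¹) (ρ γ) ξ hξ).1
    rw [← h2, ← map_mul, inv_mul_cancel, map_one, hCHV.2.2.2.1] at h1
    exact h1

private theorem acu_null (g : SL) : volume {ξ : ℂ | g 1 0 * ξ + g 1 1 = 0} = 0 := by
  by_cases hc : g 1 0 = 0
  · have hd : g 1 1 ≠ 0 := by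
      intro hd
      have := g.det_coe
      rw [Matrix.det_fin_two, hc, hd] at this
      simp at this
    have : {ξ : ℂ | g 1 0 * ξ + g 1 1 = 0} = ∅ := by
      ext ξ
      simp [hc, hd]
    rw [this, measure_empty]
  · refine measure_mono_null (t := {-(g 1 1) / g 1 0}) ?_ (measure_singleton _)
    intro ξ hξ
    rw [Set.mem_singleton_iff, eq_div_iff hc]
    have : g 1 0 * ξ + g 1 1 = 0 := hξ
    linear_combination this

private theorem acu_actA (hCHV : StCHV) (hAWB : StAWB) {Γ : Type} [Group Γ] {ρ : Γ →* SL}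
    {A B : Set ℂ} (h : KD ρ A B) : ActOn (ab ρ) A (mA A B) := by
  obtain ⟨chv1, chv2, chv3, chv4, chv5⟩ := hCHV
  obtain ⟨awb1, awb2, awb3, awb4⟩ := hAWB Γ ρ A B h
  have hAm : MeasurableSet A := h.opA.measurableSet
  refine ⟨hAm, ?_, ?_, ?_, ?_, ?_, ?_⟩
  · apply withDensity_absolutelyContinuous
    rw [Measure.restrict_apply hAm.compl, Set.compl_inter_self, measure_empty]
  · intro γ x hx
    exact (h.mpA γ x hx).2
  · intro x _
    change mb (ρ 1) x = x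
    rw [map_one, chv4]
  · intro γ δ x hx
    change mb (ρ (γ * δ)) x = mb (ρ γ) (mb (ρ δ) x)
    rw [map_mul, (chv2 (ρ γ) (ρ δ) x (h.mpA δ x hx).1).1]
  · intro γ
    exact chv5 (ρ γ)
  · intro γ f hf
    change ∫⁻ x, (f ∘ mb (ρ γ)) x ∂(mA A B) = ∫⁻ x, f x ∂(mA A B)
    unfold mA
    rw [lintegral_withDensity_eq_lintegral_mul _ awb1 hf,
      lintegral_withDensity_eq_lintegral_mul _ awb1 (hf.comp (chv5 (ρ γ)))]
    have hF : Measurable (A.indicator (aw B * f)) := (awb1.mul hf).indicator hAm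
    rw [← lintegral_indicator hAm, ← lintegral_indicator hAm,
      ← chv1 (ρ γ) (A.indicator (aw B * f)) hF]
    apply lintegral_congr_ae
    have hae : ∀ᵐ ξ : ℂ, ρ γ 1 0 * ξ + ρ γ 1 1 ≠ 0 := by
      rw [ae_iff]
      simp only [not_not]
      exact acu_null (ρ γ)
    filter_upwards [hae] with ξ hξ
    by_cases hA : ξ ∈ A
    · have hA' : mb (ρ γ) ξ ∈ A := (h.mpA γ ξ hA).2
      rw [Set.indicator_of_mem hA, Set.indicator_of_mem hA', Pi.mul_apply, Pi.mul_apply,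
        awb4 γ ξ hA]
      have hpos : 0 < ‖ρ γ 1 0 * ξ + ρ γ 1 1‖ ^ 4 := by positivity
      have : ENNReal.ofReal (‖ρ γ 1 0 * ξ + ρ γ 1 1‖ ^ 4) *
          ENNReal.ofReal (1 / ‖ρ γ 1 0 * ξ + ρ γ 1 1‖ ^ 4) = 1 := by
        rw [← ENNReal.ofReal_mul hpos.le, mul_one_div_cancel hpos.ne', ENNReal.ofReal_one]
      calc aw B ξ * (f ∘ mb (ρ γ)) ξ
          = aw B ξ * f (mb (ρ γ) ξ) * 1 := by rw [mul_one]; rfl
        _ = aw B ξ * f (mb (ρ γ) ξ) * (ENNReal.ofReal (‖ρ γ 1 0 * ξ + ρ γ 1 1‖ ^ 4) *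
          ENNReal.ofReal (1 / ‖ρ γ 1 0 * ξ + ρ γ 1 1‖ ^ 4)) := by rw [this]
        _ = _ := by ring
    · have hA' : mb (ρ γ) ξ ∉ A := fun h' =>
        hA ((acu_iff ⟨chv1, chv2, chv3, chv4, chv5⟩ h γ ξ hξ).2 h')
      rw [Set.indicator_of_notMem hA, Set.indicator_of_notMem hA', zero_mul]

private theorem acu_sf (hAWB : StAWB) {Γ : Type} [Group Γ] {ρ : Γ →* SL}
    {A B : Set ℂ} (h : KD ρ A B) : SigmaFinite (mA A B) := by
  obtain ⟨awb1, awb2, awb3, awb4⟩ := hAWB Γ ρ A B h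
  unfold mA
  apply SigmaFinite.withDensity_of_ne_top
  rw [ae_restrict_iff' h.opA.measurableSet]
  exact ae_of_all _ fun x hx => (awb3 x hx).1

private theorem acu_hv (hCHV : StCHV) (hHME : StHME) {Γ : Type} [Group Γ] {ρ : Γ →* SL}
    {A B : Set ℂ} (h : KD ρ A B) (γ : Γ) (x : Pt) (hx : x ∈ up) :
    hv A (ga (ρ γ) x) = hv A x := by
  obtain ⟨_, _, _, _, _, _, _, hme8⟩ := hHME
  exact hme8 A A (ρ γ) x h.opA.measurableSet h.opA.measurableSet hx
    (fun ξ hξ => acu_iff hCHV h γ ξ hξ)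

private theorem acu_en (hCHI : StCHI) (hVOL : StVOL) (hCHV : StCHV)
    (hHME : StHME) {Γ : Type} [Group Γ] {ρ : Γ →* SL}
    {A B : Set ℂ} (h : KD ρ A B) (γ : Γ) (x : Pt) (hx : x ∈ up) :
    en A (ga (ρ γ) x) = en A x := by
  have hm : Measurable (hv A) := (hHME.2.2.1 A h.opA.measurableSet).1
  have hk : Measurable (fun y : Pt => kk (ga (ρ γ) x) y) := by
    have h0 : Measurable (fun y : Pt => ((ga (ρ γ) x, y) : Pt × Pt)) := measurable_prodMk_left
    obtain ⟨_, _, _, _, _, chi6⟩ := hCHI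
    have h1 := Measurable.comp chi6 h0
    have h2 : ((fun p : Pt × Pt => kk p.1 p.2) ∘ fun y : Pt => ((ga (ρ γ) x, y) : Pt × Pt)) =
      (fun y : Pt => kk (ga (ρ γ) x) y) := by
      funext y
      rw [Function.comp_apply]
    rw [h2] at h1
    exact h1
  unfold en
  rw [← hVOL.2.1 (ρ γ) (fun y => ENNReal.ofReal (kk (ga (ρ γ) x) y *
    (hv A (ga (ρ γ) x) - hv A y) ^ 2))
    (ENNReal.measurable_ofReal.comp (hk.mul ((measurable_const.sub hm).pow_const 2)))]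
  apply lintegral_congr_ae
  filter_upwards [ae_up] with y hy
  rw [acu_hv hCHV hHME h γ x hx, acu_hv hCHV hHME h γ y hy, (hCHI.2.1 (ρ γ) x hx y hy).2]

theorem hACU (hACT : StACT) (hCHI : StCHI) (hVOL : StVOL) (hCHV : StCHV) (hHME : StHME)
    (hAWB : StAWB) : StACU := by
  intro Γ _ ρ A B h
  refine ⟨?_, ?_, acu_actA hCHV hAWB h, acu_sf hAWB h, ?_, ?_, acu_swap h⟩
  · rw [← Set.countable_univ_iff]
    have : (Set.univ : Set Γ) = ⋃ n : ℕ, {γ : Γ | Pool.Agent.Helper35.PM.hs (ρ γ) ≤ n} := by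
      ext γ
      simp only [Set.mem_univ, Set.mem_iUnion, Set.mem_ofPred_eq, true_iff]
      exact exists_nat_ge _
    rw [this]
    exact Set.countable_iUnion fun n => (h.disc n).countable
  · refine ⟨up_meas, vol_up, ?_, ?_, ?_, ?_, ?_⟩
    · intro γ x hx
      exact (hACT.1 (ρ γ) x hx).2.1
    · intro x hx
      change ga (ρ 1) x = x
      rw [map_one, hACT.2.2.1 x hx]
    · intro γ δ x hx
      change ga (ρ (γ * δ)) x = ga (ρ γ) (ga (ρ δ) x)
      rw [map_mul, hACT.2.1 (ρ γ) (ρ δ) x hx]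
    · intro γ
      exact (hACT.2.2.2.1 (ρ γ)).1
    · intro γ f hf
      exact hVOL.2.1 (ρ γ) f hf
  · intro γ x hx
    exact ⟨acu_hv hCHV hHME (acu_swap h) γ x hx, acu_hv hCHV hHME h γ x hx⟩
  · intro γ x hx
    refine ⟨acu_en hCHI hVOL hCHV hHME (acu_swap h) γ x hx,
      acu_en hCHI hVOL hCHV hHME h γ x hx, ?_⟩
    unfold en
    apply lintegral_congr_ae
    filter_upwards [ae_up] with y hy
    have h1 := hHME.2.1 A B x h.opA.measurableSet h.opB.measurableSet h.dis h.nul hx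
    have h2 := hHME.2.1 A B y h.opA.measurableSet h.opB.measurableSet h.dis h.nul hy
    have h3 : hv A x = 1 - hv B x := by linarith
    have h4 : hv A y = 1 - hv B y := by linarith
    rw [h3, h4]
    congr 1
    ring

end Pool.Agent.Helper28.QA
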