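import Pool.Agent.Helper86.QA.St3

/-!
# Project QD (MP_d112a4_gt), part A: module SWS (signed exchange)
-/

set_option autoImplicit false

open MeasureTheory Matrix Set Topology
open scoped ENNReal ComplexConjugate

namespace Pool.Agent.Helper28.QA

open Pool.Agent.Helper86.QA

private theorem sws_int {α : Type} [MeasurableSpace α] (D : Set α) (μ : Measure α) [SigmaFinite μ]
    (H : α → α → ℝ) (hH : Measurable (fun p : α × α => H p.1 p.2))
    (hfin : ∫⁻ x in D, ∫⁻ y, ENNReal.ofReal |H x y| ∂μ ∂μ ≠ ∞) :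
    ∫ x in D, ∫ y, H x y ∂μ ∂μ = (∫⁻ x in D, ∫⁻ y, ENNReal.ofReal (H x y) ∂μ ∂μ).toReal -
      (∫⁻ x in D, ∫⁻ y, ENNReal.ofReal (- H x y) ∂μ ∂μ).toReal := by
  have hI : Integrable (fun p : α × α => H p.1 p.2) ((μ.restrict D).prod μ) := by
    refine ⟨hH.aestronglyMeasurable, ?_⟩
    rw [hasFiniteIntegral_iff_norm, lintegral_prod _ hH.norm.ennreal_ofReal.aemeasurable]
    exact lt_top_iff_ne_top.2 hfin
  have h1 := integral_prod (fun p : α × α => H p.1 p.2) hI
  have h2 := integral_eq_lintegral_pos_part_sub_lintegral_neg_part hI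
  have hn : Measurable (fun p : α × α => ENNReal.ofReal (- H p.1 p.2)) := hH.neg.ennreal_ofReal
  rw [lintegral_prod _ hH.ennreal_ofReal.aemeasurable,
    lintegral_prod _ hn.aemeasurable] at h2
  rw [← h2, h1]

theorem hSWS (hSW0 : StSW0) : StSWS := by
  intro Γ _ _ α _ a S D μ _ H hA hF hH hinv hfin
  have key : ∀ h : α → α → ℝ≥0∞, Measurable (fun p : α × α => h p.1 p.2) →
      (∀ (γ : Γ), ∀ x ∈ S, ∀ y ∈ S, h (a γ x) (a γ y) = h x y) →
      ∫⁻ x in D, ∫⁻ y, h x y ∂μ ∂μ = ∫⁻ y in D, ∫⁻ x, h x y ∂μ ∂μ := by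
    intro h hm hi
    rw [hSW0 Γ α α a a S D S D μ μ h hA hA hF hF hm hi]
    exact lintegral_lintegral_swap hm.aemeasurable
  have hH' : Measurable (fun p : α × α => H p.2 p.1) := hH.comp measurable_swap
  have hfin' : ∫⁻ y in D, ∫⁻ x, ENNReal.ofReal |H x y| ∂μ ∂μ ≠ ∞ := by
    rw [← key (fun x y => ENNReal.ofReal |H x y|) hH.abs.ennreal_ofReal
      (fun γ x hx y hy => by rw [hinv γ x hx y hy])]
    exact hfin
  have hn : Measurable (fun p : α × α => ENNReal.ofReal (- H p.1 p.2)) := hH.neg.ennreal_ofReal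
  refine ⟨?_, hfin'⟩
  rw [sws_int D μ H hH hfin, sws_int D μ (fun y x => H x y) hH' hfin',
    key (fun x y => ENNReal.ofReal (H x y)) hH.ennreal_ofReal
      (fun γ x hx y hy => by rw [hinv γ x hx y hy]),
    key (fun x y => ENNReal.ofReal (- H x y)) hn
      (fun γ x hx y hy => by rw [hinv γ x hx y hy])]

end Pool.Agent.Helper28.QA
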